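import Pool.Agent.R684.GP.Stm

/-! GP-GQ: comparison of quotients. -/

set_option autoImplicit false

namespace Pool.Agent.R335.GPGQ

open Pool.Agent.R684.GP

theorem core_le {G : Type} [Group G] {i : ℕ} {N : Subgroup G} (h1 : N.Normal) (h2 : N.index ≠ 0)
    (h3 : N.index ≤ i) : core G i ≤ N := sInf_le ⟨h1, h2, h3⟩

theorem pull_index {A B : Type} [Group A] [Group B] (R : Subgroup B) [R.Normal] (g : A →* B ⧸ R)
    (hg : Function.Surjective g) (M : Subgroup B) (hRM : R ≤ M) :
    ((M.map (QuotientGroup.mk' R)).comap g).index = M.index := by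
  rw [Subgroup.index_comap_of_surjective _ hg]
  exact Subgroup.index_map_eq _ (QuotientGroup.mk'_surjective R)
    (by rw [QuotientGroup.ker_mk']; exact hRM)

theorem core_pull {A B : Type} [Group A] [Group B] (i : ℕ) (R : Subgroup B) [R.Normal]
    (g : A →* B ⧸ R) (hg : Function.Surjective g) (hRC : R ≤ core B i) :
    core A i ≤ ((core B i).map (QuotientGroup.mk' R)).comap g := by
  intro a ha
  obtain ⟨b, hb⟩ := QuotientGroup.mk'_surjective R (g a)
  rw [Subgroup.mem_comap, ← hb]
  refine Subgroup.mem_map_of_mem _ ?_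
  rw [core, Subgroup.mem_sInf]
  rintro N ⟨hN1, hN2, hN3⟩
  have hRN : R ≤ N := hRC.trans (core_le hN1 hN2 hN3)
  have hM : ((N.map (QuotientGroup.mk' R)).comap g).index = N.index := pull_index R g hg N hRN
  have hn : ((N.map (QuotientGroup.mk' R)).comap g).Normal := by
    have := hN1.map (QuotientGroup.mk' R) (QuotientGroup.mk'_surjective R)
    exact this.comap g
  have ha' : a ∈ (N.map (QuotientGroup.mk' R)).comap g :=
    core_le hn (by rw [hM]; exact hN2) (by rw [hM]; exact hN3) ha
  rw [Subgroup.mem_comap, ← hb] at ha'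
  obtain ⟨n, hn', hnb⟩ := ha'
  have h5 : n⁻¹ * b ∈ R := QuotientGroup.eq.1 hnb
  have h4 : n * (n⁻¹ * b) ∈ N := N.mul_mem hn' (hRN h5)
  simpa using h4

theorem t_GQ (hCO : S_CO) : S_GQ := by
  intro A B _ _ _ _ hS i R _ hR hRC
  have hfin : Finite (B ⧸ R) := Subgroup.index_ne_zero_iff_finite.1 hR
  obtain ⟨g, hg⟩ := (hS (B ⧸ R)).2 ⟨QuotientGroup.mk' R, QuotientGroup.mk'_surjective R⟩
  have hAn : (core A i).Normal := (hCO A i).1
  have hAi := (hCO A i).2
  have hBi := (hCO B i).2
  have hfinA : Finite (A ⧸ core A i) := Subgroup.index_ne_zero_iff_finite.1 hAi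
  obtain ⟨h, hh⟩ := (hS (A ⧸ core A i)).1
    ⟨QuotientGroup.mk' (core A i), QuotientGroup.mk'_surjective (core A i)⟩
  have hK := core_pull i R g hg hRC
  have hKi := pull_index R g hg _ hRC
  have hL := core_pull i (core A i) h hh le_rfl
  have hLi := pull_index (core A i) h hh _ le_rfl
  have hd1 : (core B i).index ∣ (core A i).index := by
    rw [← hKi]
    exact Subgroup.index_dvd_of_le hK
  have hd2 : (core A i).index ∣ (core B i).index := by
    rw [← hLi]
    exact Subgroup.index_dvd_of_le hL
  have heq : (core A i).index = (core B i).index := Nat.dvd_antisymm hd2 hd1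
  refine ⟨heq, g, hg, ?_⟩
  have hrel := Subgroup.relIndex_mul_index hK
  rw [hKi, heq] at hrel
  have hone : (core A i).relIndex (((core B i).map (QuotientGroup.mk' R)).comap g) = 1 := by
    have : (core A i).relIndex (((core B i).map (QuotientGroup.mk' R)).comap g) *
      (core B i).index = 1 * (core B i).index := by rw [hrel, one_mul]
    exact Nat.eq_of_mul_eq_mul_right (Nat.pos_of_ne_zero hBi) this
  have hle := Subgroup.relIndex_eq_one.1 hone
  intro a
  constructor
  · intro ha
    exact hle ha
  · intro ha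
    exact hK ha

end Pool.Agent.R335.GPGQ
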